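import Pool.Agent.Lib.VF72.Br

/-! On a compact complex manifold with a holomorphic action of the complex line that has no fixed
point and whose generator is not dual to a closed holomorphic form, nef classes have volume zero. -/

open scoped ContDiff Manifold Matrix
open MeasureTheory Pool.Agent.Lib.SV Pool.Agent.Lib.HS Pool.Agent.Lib.GH Pool.Agent.Lib.VF72

namespace Pool.Agent.Results.MP_0bb62e_gt.FlowNoVolume

theorem result (n : ℕ) (X : Type) [TopologicalSpace X] [T2Space X] [CompactSpace X]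
    [ConnectedSpace X] [ChartedSpace (E n) X] [IsManifold 𝓘(ℂ, E n) ω X]
    [MeasurableSpace X] [BorelSpace X] [AddAction ℂ X]
    (hol : MDifferentiable (𝓘(ℂ, ℂ).prod 𝓘(ℂ, E n)) 𝓘(ℂ, E n) fun p : ℂ × X => p.1 +ᵥ p.2)
    (free : ∀ x : X, ∃ t : ℂ, t +ᵥ x ≠ x)
    (no : ¬∃ φ : X → E n, ClosedHol φ ∧ ∀ x, φ x ⬝ᵥ gen n x = 1)
    (h β : X → Mat n) (hh : Hermitian h) (hβ : ClosedForm β) (nef : Nef h β) :
    ∫ x, ((β x).det / (h x).det).re ∂vol h = 0 :=
  top hol free no hh hβ nef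

end Pool.Agent.Results.MP_0bb62e_gt.FlowNoVolume
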